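import Mathlib
import Pool.Agent.Results.MP_bf5cf5_an.LogCubeExample

/-!
# Yang Lo directions: growth `C (log r)^3` with any constant `C` does not suffice

For every `C` there is a meromorphic function in the plane, not rational, with `T(r, f) ≥ C (log r)^3` for all large
`r`, such that every direction has a neighbouring sector in which some value `a` is taken at most finitely often and,
for some `k ≥ 1`, the derivative of order `k` takes EVERY value `w ≠ 0` at most finitely often.  In particular `f` has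
no Yang Lo direction.  By Yang Lo's theorem this fails if `T(r, f) / (log r)^3 → ∞`; so in this theorem the growth
hypothesis cannot be replaced by `liminf T(r, f) / (log r)^3 ≥ C`, for any `C`.

The functions are the powers of the function of the file `LogCubeExample`, which has `T(r, f) ≥ c (log r)^3` for some
small `c > 0`.
-/

open Filter Topology Set Complex

namespace Pool.Agent.Results.MP_bf5cf5_an.EveryConstant

open Pool.Agent.H311R2.YL LogCubeExample

/-- the power -/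
noncomputable def G (M : ℕ) (z : ℂ) : ℂ := f z ^ M

lemma G_eq_pole (M k : ℕ) (z : ℂ) : G M z = (z - 2 ^ k) ^ (-(M * k : ℤ)) * (gk k z) ^ M := by
  unfold G
  rw [f_eq_pole k z, mul_pow, ← zpow_natCast ((z - 2 ^ k) ^ (-(k : ℤ))) M, ← zpow_mul]
  congr 2
  ring

lemma G_analyticAt (M : ℕ) {z : ℂ} (hz : z ∉ Pol) : AnalyticAt ℂ (G M) z := (f_analyticAt hz).pow M

lemma G_NF (M : ℕ) : MeromorphicNFOn (G M) univ := by
  intro z _
  by_cases hz : z ∈ Pol
  · obtain ⟨n, hn, rfl⟩ := hz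
    right
    refine ⟨-(M * n : ℤ), fun z => gk n z ^ M, (gk_analyticAt n).pow M, pow_ne_zero _ (gk_ne n),
      Eventually.of_forall fun z => ?_⟩
    rw [G_eq_pole M n z]
    rfl
  · exact (G_analyticAt M hz).meromorphicNFAt

lemma G_meromorphicAt (M : ℕ) (z : ℂ) : MeromorphicAt (G M) z := (G_NF M (mem_univ z)).meromorphicAt

lemma G_meromorphic (M : ℕ) : MeromorphicOn (G M) univ := fun z _ => G_meromorphicAt M z

lemma order_pole_G (M k : ℕ) : meromorphicOrderAt (G M) (2 ^ k) = (-(M * k : ℤ) : ℤ) := by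
  rw [meromorphicOrderAt_eq_int_iff (G_meromorphicAt M _)]
  refine ⟨fun z => gk k z ^ M, (gk_analyticAt k).pow M, pow_ne_zero _ (gk_ne k),
    Eventually.of_forall fun z => ?_⟩
  rw [G_eq_pole M k z]
  rfl

lemma not_analyticAt_pole_G {M : ℕ} (hM : 1 ≤ M) {z : ℂ} (hz : z ∈ Pol) : ¬ AnalyticAt ℂ (G M) z := by
  obtain ⟨n, hn, rfl⟩ := hz
  intro h
  have h1 := h.meromorphicOrderAt_nonneg
  rw [order_pole_G M n] at h1
  have h2 : (0 : ℤ) ≤ -(M * n : ℤ) := by exact_mod_cast h1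
  have h3 : (1 : ℤ) ≤ M * n := by exact_mod_cast Nat.mul_pos hM hn
  omega

/-- finiteness of solution sets -/
lemma finite_sol {M : ℕ} (hM : 1 ≤ M) {S : Set ℂ} (k : ℕ) (w : ℂ) (R : ℝ)
    (h1 : ∀ z ∈ S, R ≤ ‖z‖ → z ∉ Pol → iteratedDeriv k (G M) z ≠ w)
    {z₁ : ℂ} (hz₁ : z₁ ∉ Pol) (h2 : iteratedDeriv k (G M) z₁ ≠ w) :
    (S ∩ solutions (G M) k w).Finite := by
  have hmero : Meromorphic (fun ζ => iteratedDeriv k (G M) ζ - w) := by
    intro z
    have h1 : MeromorphicAt (iteratedDeriv k (G M)) z := by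
      rw [iteratedDeriv_eq_iterate]
      exact (G_meromorphicAt M z).iterated_deriv
    exact h1.sub (MeromorphicAt.const w z)
  have hord : ∀ z, ∀ᶠ ζ in 𝓝[≠] z, iteratedDeriv k (G M) ζ - w ≠ 0 := by
    have h3 : ∃ u, meromorphicOrderAt (fun ζ => iteratedDeriv k (G M) ζ - w) u ≠ ⊤ := by
      refine ⟨z₁, ?_⟩
      rw [meromorphicOrderAt_ne_top_iff_eventually_ne_zero (hmero z₁)]
      have h4 : ContinuousAt (iteratedDeriv k (G M)) z₁ := by
        have := ((G_analyticAt M hz₁).iterated_deriv k).continuousAt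
        rwa [← iteratedDeriv_eq_iterate] at this
      have h5 := h4.eventually_ne h2
      filter_upwards [nhdsWithin_le_nhds h5] with ζ hζ
      exact sub_ne_zero.2 hζ
    intro z
    rw [← meromorphicOrderAt_ne_top_iff_eventually_ne_zero (hmero z)]
    exact hmero.exists_meromorphicOrderAt_ne_top_iff_forall.1 h3 z
  have hsub : S ∩ solutions (G M) k w ⊆ Metric.closedBall 0 R := by
    rintro z ⟨hzS, hza, hzw⟩
    rw [mem_closedBall_zero_iff]
    by_contra hlt
    rw [not_le] at hlt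
    exact h1 z hzS hlt.le (fun hp => not_analyticAt_pole_G hM hp hza) hzw
  by_contra hinf
  obtain ⟨z, -, hacc⟩ := Set.Infinite.exists_accPt_of_subset_isCompact hinf
    (isCompact_closedBall 0 R) hsub
  rw [accPt_iff_frequently_nhdsNE] at hacc
  obtain ⟨ζ, h1, h2⟩ := (hacc.and_eventually (hord z)).exists
  exact h2 (sub_eq_zero.2 h1.2.2)

/-- some derivative tends to zero off a sector about the positive axis -/
lemma deriv_small_G (M : ℕ) {d : ℝ} (hd : 0 < d) (hd2 : d ≤ 1 / 2) :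
    ∃ K : ℕ, 1 ≤ K ∧ ∀ δ : ℝ, 0 < δ → ∃ R : ℝ, 0 < R ∧ ∀ z : ℂ, R ≤ ‖z‖ → z.re ≤ (1 - 3 * d) * ‖z‖ →
      ‖iteratedDeriv K (G M) z‖ < δ := by
  obtain ⟨K₀, hK₀⟩ := f_growth (κ := 1 - d) (by linarith) (by linarith)
  set K : ℕ := K₀ * M with hKd
  have hK : ∀ z : ℂ, 1 ≤ ‖z‖ → z.re ≤ (1 - d) * ‖z‖ → ‖G M z‖ ≤ (4 * ‖z‖) ^ K := by
    intro z h1 h2
    unfold G
    rw [norm_pow, hKd, pow_mul]
    exact pow_le_pow_left₀ (norm_nonneg _) (hK₀ z h1 h2) _
  refine ⟨K + 1, by omega, fun δ hδ => ?_⟩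
  set C : ℝ := (K + 1).factorial * 8 ^ K / (d / 2) ^ (K + 1) with hC
  have hCpos : 0 < C := by positivity
  refine ⟨max 2 (C / δ + 1), by positivity, fun z hz hre => ?_⟩
  have hz2 : 2 ≤ ‖z‖ := (le_max_left _ _).trans hz
  have hzC : C < δ * ‖z‖ := by
    have := (le_max_right 2 (C / δ + 1)).trans hz
    have h1 : C / δ < ‖z‖ := by linarith
    rw [div_lt_iff₀ hδ] at h1
    linarith
  have hz0 : 0 < ‖z‖ := by linarith
  set ρ : ℝ := d / 2 * ‖z‖ with hρ
  have hρ0 : 0 < ρ := by positivity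
  have hball : ∀ ζ ∈ Metric.closedBall z ρ, 1 ≤ ‖ζ‖ ∧ ζ.re ≤ (1 - d) * ‖ζ‖ ∧ ‖ζ‖ ≤ 2 * ‖z‖ := by
    intro ζ hζ
    rw [mem_closedBall_iff_norm] at hζ
    have h1 : (1 - d / 2) * ‖z‖ ≤ ‖ζ‖ := by
      have := norm_sub_norm_le z ζ
      rw [norm_sub_rev] at this
      linarith
    have h2 : ‖ζ‖ ≤ (1 + d / 2) * ‖z‖ := by
      have := norm_sub_norm_le ζ z
      linarith
    have h3 : ζ.re ≤ z.re + ρ := by
      have h4 : (ζ - z).re ≤ ‖ζ - z‖ := Complex.re_le_norm _
      rw [Complex.sub_re] at h4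
      linarith
    refine ⟨by nlinarith, ?_, by nlinarith⟩
    have h5 : (1 - d) * ((1 - d / 2) * ‖z‖) ≤ (1 - d) * ‖ζ‖ := by
      apply mul_le_mul_of_nonneg_left h1; linarith
    have h6 : 0 ≤ d ^ 2 * ‖z‖ := by positivity
    nlinarith
  have hnp : ∀ ζ ∈ Metric.closedBall z ρ, ζ ∉ Pol := fun ζ hζ =>
    not_pol_of_kappa (κ := 1 - d) (by linarith) (hball ζ hζ).2.1
  have hcauchy := Complex.norm_iteratedDeriv_le_of_forall_mem_sphere_norm_le (f := G M) (c := z)
    (R := ρ) (C := (8 * ‖z‖) ^ K) (K + 1) hρ0 (by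
      apply DifferentiableOn.diffContOnCl
      intro ζ hζ
      rw [closure_ball z hρ0.ne'] at hζ
      exact (G_analyticAt M (hnp ζ hζ)).differentiableAt.differentiableWithinAt) (by
      intro ζ hζ
      obtain ⟨ha, hb, hc⟩ := hball ζ (Metric.sphere_subset_closedBall hζ)
      refine (hK ζ ha hb).trans ?_
      apply pow_le_pow_left₀ (by positivity)
      linarith)
  refine hcauchy.trans_lt ?_
  have h7 : ((K + 1).factorial : ℝ) * (8 * ‖z‖) ^ K / ρ ^ (K + 1) = C / ‖z‖ := by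
    rw [hC, hρ, mul_pow, mul_pow, pow_succ ‖z‖ K]
    field_simp
  rw [h7, div_lt_iff₀ hz0]
  exact hzC

/-- what happens near a direction -/
def Bad (F : ℂ → ℂ) (θ₀ : ℝ) : Prop :=
  ∃ ε : ℝ, 0 < ε ∧ (∃ a : ℂ, (sector θ₀ ε ∩ solutions F 0 a).Finite) ∧
    ∃ k : ℕ, 1 ≤ k ∧ ∀ w : ℂ, w ≠ 0 → (sector θ₀ ε ∩ solutions F k w).Finite

/-- directions other than the positive axis -/
lemma bad_off {M : ℕ} (hM : 1 ≤ M) (θ₀ : ℝ) (h0 : Real.cos θ₀ < 1) : Bad (G M) θ₀ := by
  set d : ℝ := (1 - Real.cos θ₀) / 4 with hd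
  have hd0 : 0 < d := by linarith
  have hd2 : d ≤ 1 / 2 := by linarith [Real.neg_one_le_cos θ₀]
  obtain ⟨K, hK1, hK⟩ := deriv_small_G M hd0 hd2
  -- the value omitted near the direction
  have hval : ∃ ε : ℝ, 0 < ε ∧ ε ≤ d ∧ ∃ a : ℂ, ∀ z ∈ sector θ₀ ε, z ∉ Pol → G M z ≠ a := by
    by_cases hcs : Real.cos θ₀ < Real.sin θ₀
    · refine ⟨min d ((Real.sin θ₀ - Real.cos θ₀) / 4), lt_min hd0 (by linarith), min_le_left _ _,
        2, fun z hz _ h => ?_⟩
      obtain ⟨θ, hθ, hn, hre, him⟩ := sector_data hz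
      have hθ' : |θ - θ₀| < (Real.sin θ₀ - Real.cos θ₀) / 4 := hθ.trans_le (min_le_right _ _)
      have h1 := (abs_le.1 ((Real.abs_cos_sub_cos_le θ θ₀))).2
      have h2 := (abs_le.1 ((Real.abs_sin_sub_sin_le θ θ₀))).1
      have h3 : Real.cos θ ≤ Real.sin θ := by linarith
      have h4 : z.re ≤ z.im := by rw [hre, him]; gcongr
      have h5 : ‖G M z‖ ≤ 1 := by
        unfold G
        rw [norm_pow]
        exact pow_le_one₀ (norm_nonneg _) (f_le_one h4)
      rw [h] at h5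
      norm_num at h5
    · push Not at hcs
      refine ⟨min d (1 / 4), lt_min hd0 (by norm_num), min_le_left _ _, 0, fun z hz hp => ?_⟩
      apply pow_ne_zero
      apply f_ne_zero hp
      intro n _ h
      obtain ⟨θ, hθ, hn, hre, him⟩ := sector_data hz
      have hθ' : |θ - θ₀| < 1 / 4 := hθ.trans_le (min_le_right _ _)
      have h1 := (abs_le.1 ((Real.abs_cos_sub_cos_le θ θ₀))).1
      have h2 := (abs_le.1 ((Real.abs_sin_sub_sin_le θ θ₀))).2
      have hzn : ‖z‖ = 2 ^ n := by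
        rw [h, norm_mul, Complex.norm_I, one_mul, norm_two_pow]
      have hzre : z.re = 0 := by
        rw [h]; simp [two_pow_im]
      have hzim : z.im = 2 ^ n := by
        rw [h]; simp [two_pow_re]
      rw [hzre] at hre
      rw [hzim, hzn] at him
      have hcos : Real.cos θ = 0 := by
        rcases mul_eq_zero.1 hre.symm with h3 | h3
        · exact absurd h3 hn.ne'
        · exact h3
      have hsin : Real.sin θ = 1 := by
        have h2n : (0 : ℝ) < 2 ^ n := by positivity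
        have : (2 : ℝ) ^ n * 1 = 2 ^ n * Real.sin θ := by linarith
        exact (mul_left_cancel₀ h2n.ne' this).symm
      rw [hcos] at h1
      rw [hsin] at h2
      linarith
  obtain ⟨ε, hε, hεd, a, ha⟩ := hval
  have hre : ∀ z ∈ sector θ₀ ε, z.re ≤ (1 - 3 * d) * ‖z‖ := by
    intro z hz
    obtain ⟨θ, hθ, hn, hre, -⟩ := sector_data hz
    have h1 := (abs_le.1 ((Real.abs_cos_sub_cos_le θ θ₀))).2
    have h2 : Real.cos θ ≤ 1 - 3 * d := by linarith
    rw [hre, mul_comm]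
    gcongr
  refine ⟨ε, hε, ⟨a, ?_⟩, K, hK1, fun w hw => ?_⟩
  · rw [Set.eq_empty_of_forall_notMem (s := sector θ₀ ε ∩ solutions (G M) 0 a)]
    · exact Set.finite_empty
    · rintro z ⟨hzS, hza, hzw⟩
      rw [iteratedDeriv_zero] at hzw
      exact ha z hzS (fun hp => not_analyticAt_pole_G hM hp hza) hzw
  · obtain ⟨R, hR, hKR⟩ := hK ‖w‖ (norm_pos_iff.2 hw)
    have hne : ∀ z ∈ sector θ₀ ε, R ≤ ‖z‖ → iteratedDeriv K (G M) z ≠ w := by
      intro z hz hRz h1
      have h2 := hKR z hRz (hre z hz)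
      rw [h1] at h2
      exact lt_irrefl _ h2
    obtain ⟨hp1, hp2⟩ := sector_point θ₀ hε hR
    refine finite_sol hM K w R (fun z hz hRz _ => hne z hz hRz)
      (z₁ := (R : ℂ) * Complex.exp ((θ₀ : ℂ) * Complex.I)) ?_ (hne _ hp1 hp2.ge)
    exact not_pol_of_kappa (κ := 1 - 3 * d) (by linarith) (hre _ hp1)

/-- the derivative of the power -/
lemma deriv_G {M : ℕ} (hM : 1 ≤ M) {z : ℂ} (hV : z ∈ V) (hz : z ∉ Pol) {m : ℕ} (hm : 1 ≤ m)
    (h1 : 2 ^ m ≤ ‖z‖) (h2 : ‖z‖ < 2 ^ (m + 1)) : 2 ^ m / 24 ≤ ‖deriv (G M) z‖ := by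
  have hd := (f_analyticAt hz).differentiableAt.hasDerivAt
  have h3 : HasDerivAt (G M) (M * f z ^ (M - 1) * deriv f z) z := hd.pow M
  rw [h3.deriv, norm_mul, norm_mul, norm_pow, Complex.norm_natCast]
  have h4 := f_lower hV hz hm h1 h2
  have h5 := deriv_f_lower hV hz hm h1 h2
  have h6 : (1:ℝ) ≤ 4 ^ m := one_le_pow₀ (by norm_num)
  have h7 : (1:ℝ) ≤ ‖f z‖ ^ (M - 1) := one_le_pow₀ (h6.trans h4)
  have h8 : (1:ℝ) ≤ M := by exact_mod_cast hM
  have h9 : (1:ℝ) ≤ M * ‖f z‖ ^ (M - 1) := one_le_mul_of_one_le_of_one_le h8 h7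
  calc (2:ℝ) ^ m / 24 ≤ ‖deriv f z‖ := h5
    _ ≤ _ := le_mul_of_one_le_left (norm_nonneg _) h9

/-- the direction of the positive axis -/
lemma bad_on {M : ℕ} (hM : 1 ≤ M) (θ₀ : ℝ) (h0 : Real.cos θ₀ = 1) : Bad (G M) θ₀ := by
  have hsin0 : Real.sin θ₀ = 0 := by
    have := Real.sin_sq_add_cos_sq θ₀
    rw [h0] at this
    nlinarith
  obtain ⟨ε, hε⟩ : ∃ ε : ℝ, ε = 1 / 1000000 := ⟨_, rfl⟩
  have hε0 : 0 < ε := by rw [hε]; norm_num
  have hV : ∀ z ∈ sector θ₀ ε, z ∈ V := by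
    intro z hz
    obtain ⟨θ, hθ, hn, hre, him⟩ := sector_data hz
    have h1 := (abs_le.1 ((Real.abs_cos_sub_cos_le θ θ₀))).1
    have h2 := Real.abs_sin_sub_sin_le θ θ₀
    rw [hsin0, sub_zero] at h2
    have hcos : 1 / 2 ≤ Real.cos θ := by linarith
    have hsin : |Real.sin θ| ≤ Real.cos θ / 100000 := by linarith
    refine ⟨by rw [hre]; positivity, ?_⟩
    rw [hre, him, abs_mul, abs_of_pos hn, mul_div_assoc]
    gcongr
  refine ⟨ε, hε0, ⟨0, ?_⟩, 1, le_rfl, fun w _ => ?_⟩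
  · rw [Set.eq_empty_of_forall_notMem (s := sector θ₀ ε ∩ solutions (G M) 0 0)]
    · exact Set.finite_empty
    · rintro z ⟨hzS, hza, hzw⟩
      rw [iteratedDeriv_zero] at hzw
      refine f_ne_zero (fun hp => not_analyticAt_pole_G hM hp hza) ?_ (pow_eq_zero_iff (by omega) |>.1 hzw)
      intro n _ h1
      have h2 := (hV z hzS).1
      rw [h1] at h2
      simp [two_pow_im] at h2
  · obtain ⟨N, hN⟩ := exists_nat_gt (48 * (‖w‖ + 1))
    have hlarge : ∀ z ∈ sector θ₀ ε, (2:ℝ) ^ (N + 1) ≤ ‖z‖ → z ∉ Pol → iteratedDeriv 1 (G M) z ≠ w := by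
      intro z hz hRz hp h1
      rw [iteratedDeriv_one] at h1
      have h64 : (1:ℝ) ≤ ‖z‖ := (one_le_pow₀ (by norm_num)).trans hRz
      obtain ⟨m, hm1, hm2⟩ := exists_nat_pow_near h64 (one_lt_two : (1 : ℝ) < 2)
      have hm6 : N + 1 ≤ m := by
        by_contra hcon
        push Not at hcon
        have : (2 : ℝ) ^ (m + 1) ≤ 2 ^ (N + 1) := pow_le_pow_right₀ (by norm_num) (by omega)
        linarith
      have h2 := deriv_G hM (hV z hz) hp (by omega) hm1 hm2
      have h3 : (2 : ℝ) ^ (N + 1) ≤ 2 ^ m := pow_le_pow_right₀ (by norm_num) hm6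
      have h4 : (N : ℝ) ≤ 2 ^ N := by
        have := (Nat.lt_two_pow_self (n := N)).le
        exact_mod_cast this
      rw [h1] at h2
      rw [pow_succ] at h3
      have h5 := norm_nonneg w
      linarith
    have hR : (0:ℝ) < 3 * 2 ^ (N + 1) := by positivity
    obtain ⟨hp1, hp2⟩ := sector_point θ₀ hε0 (R := 3 * 2 ^ (N + 1)) hR
    have hnp : ((3 * 2 ^ (N + 1) : ℝ) : ℂ) * Complex.exp ((θ₀ : ℂ) * Complex.I) ∉ Pol := by
      rintro ⟨n, _, h1⟩
      rw [h1, norm_two_pow] at hp2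
      have h2 : (2 : ℕ) ^ n = 3 * 2 ^ (N + 1) := by exact_mod_cast hp2
      have h3 : 3 ∣ 2 ^ n := ⟨2 ^ (N + 1), h2⟩
      have h4 := Nat.Prime.dvd_of_dvd_pow Nat.prime_three h3
      omega
    refine finite_sol hM 1 w (2 ^ (N + 1)) hlarge hnp (hlarge _ hp1 ?_ hnp)
    rw [hp2]
    have : (0:ℝ) < 2 ^ (N + 1) := by positivity
    linarith

theorem all_bad {M : ℕ} (hM : 1 ≤ M) (θ₀ : ℝ) : Bad (G M) θ₀ := by
  rcases (Real.cos_le_one θ₀).lt_or_eq with h | h
  · exact bad_off hM θ₀ h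
  · exact bad_on hM θ₀ h

theorem not_yang_lo {F : ℂ → ℂ} {θ₀ : ℝ} (h : Bad F θ₀) : ¬ IsYangLoDirection F θ₀ := by
  obtain ⟨ε, hε, ⟨a, ha⟩, k, hk, hw⟩ := h
  intro hY
  rcases hY ε hε with h1 | h1
  · exact h1 a ha
  · exact h1 k hk 1 one_ne_zero (hw 1 one_ne_zero)

theorem not_rational_G {M : ℕ} (hM : 1 ≤ M) : ¬ IsRational (G M) := by
  rintro ⟨A, Q, hQ, hAQ⟩
  have hroot : ∀ n : ℕ, Q.eval ((2 : ℂ) ^ (n + 1)) = 0 := by
    intro n
    by_contra hne
    apply not_analyticAt_pole_G hM (z := (2 : ℂ) ^ (n + 1)) ⟨n + 1, by omega, rfl⟩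
    have h1 : AnalyticAt ℂ (fun z => A.eval z / Q.eval z) ((2 : ℂ) ^ (n + 1)) :=
      (A.differentiable.analyticAt _).fun_div (Q.differentiable.analyticAt _) hne
    refine h1.congr ?_
    filter_upwards [Q.continuous.continuousAt.eventually_ne hne] with z hz
    exact (hAQ z hz).symm
  apply hQ
  apply Polynomial.eq_zero_of_infinite_isRoot
  have hinj : Function.Injective fun n : ℕ => (2 : ℂ) ^ (n + 1) := by
    intro a b hab
    have hab' : (2 : ℂ) ^ (a + 1) = 2 ^ (b + 1) := hab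
    have h3 : (2 : ℕ) ^ (a + 1) = 2 ^ (b + 1) := by exact_mod_cast hab'
    have := Nat.pow_right_injective le_rfl h3
    omega
  refine (Set.infinite_range_of_injective hinj).mono ?_
  rintro _ ⟨n, rfl⟩
  exact hroot n

/-- the characteristic of the power -/
lemma char_G (M : ℕ) : ValueDistribution.characteristic (G M) ⊤ =
    M • ValueDistribution.characteristic f ⊤ := by
  have h : G M = f ^ M := rfl
  rw [h, ValueDistribution.characteristic_pow_top f_meromorphicAt]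

/-- For every constant `C` there is a meromorphic function `f` in the plane (in normal form: analytic off its
poles, value `0` at the poles), not rational, whose Nevanlinna characteristic satisfies `T(r, f) ≥ C (log r)^3` for
all large `r` (so `T(r, f) / (log r)^2 → ∞`), such that near every direction some value is taken at most finitely
often and some derivative takes every value `w ≠ 0` at most finitely often; so `f` has no Yang Lo direction. -/
theorem result (C : ℝ) : ∃ f : ℂ → ℂ, MeromorphicNFOn f univ ∧ ¬ IsRational f ∧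
    (∀ᶠ r : ℝ in atTop, C * Real.log r ^ 3 ≤ ValueDistribution.characteristic f ⊤ r) ∧
    Tendsto (fun r : ℝ => ValueDistribution.characteristic f ⊤ r / Real.log r ^ 2) atTop atTop ∧
    (∀ θ₀ : ℝ, ∃ ε : ℝ, 0 < ε ∧ (∃ a : ℂ, (sector θ₀ ε ∩ solutions f 0 a).Finite) ∧
      ∃ k : ℕ, 1 ≤ k ∧ ∀ w : ℂ, w ≠ 0 → (sector θ₀ ε ∩ solutions f k w).Finite) ∧
    ∀ θ₀ : ℝ, ¬ IsYangLoDirection f θ₀ := by
  obtain ⟨c, hc, hT⟩ := T_lower
  obtain ⟨M, hM⟩ := exists_nat_gt (max 1 (C / c))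
  have hM1 : 1 ≤ M := by
    have : (1:ℝ) < M := (le_max_left _ _).trans_lt hM
    exact_mod_cast this.le
  have hMC : C ≤ M * c := by
    have : C / c < M := (le_max_right _ _).trans_lt hM
    rw [div_lt_iff₀ hc] at this
    exact this.le
  have hgrow : ∀ᶠ r : ℝ in atTop, C * Real.log r ^ 3 ≤ ValueDistribution.characteristic (G M) ⊤ r := by
    filter_upwards [hT, eventually_gt_atTop (1 : ℝ)] with r hr hr1
    have hl : 0 < Real.log r := Real.log_pos hr1
    rw [char_G, Pi.smul_apply, nsmul_eq_mul]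
    calc C * Real.log r ^ 3 ≤ M * c * Real.log r ^ 3 := by gcongr
      _ = M * (c * Real.log r ^ 3) := by ring
      _ ≤ _ := by gcongr
  have hquot : Tendsto (fun r : ℝ => ValueDistribution.characteristic (G M) ⊤ r / Real.log r ^ 2)
      atTop atTop := by
    have h1 : Tendsto (fun r : ℝ => (M : ℝ) * (ValueDistribution.characteristic f ⊤ r / Real.log r ^ 2))
        atTop atTop := T_quot.const_mul_atTop (by exact_mod_cast hM1)
    refine h1.congr fun r => ?_
    rw [char_G, Pi.smul_apply, nsmul_eq_mul, mul_div_assoc]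
  exact ⟨G M, G_NF M, not_rational_G hM1, hgrow, hquot, fun θ₀ => all_bad hM1 θ₀,
    fun θ₀ => not_yang_lo (all_bad hM1 θ₀)⟩

end Pool.Agent.Results.MP_bf5cf5_an.EveryConstant
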